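import Mathlib

/-!
# A discrete crossing lemma

In the rectangle of the squares `(x, y)`, `0 ≤ x < m`, `0 ≤ y < n`, an edge-connected chain of
squares from the bottom row to the top row and a chain of squares from the left column to the
right column, consecutive squares of which share at least a corner, have a common square.
-/

set_option autoImplicit false

namespace Pool.Agent.Lib.MP_f3090c_an.Cross

/-- the two squares are equal or share an edge -/
def Adj4 (p q : ℤ × ℤ) : Prop :=
  p = q ∨ (p.1 = q.1 ∧ (q.2 = p.2 + 1 ∨ p.2 = q.2 + 1)) ∨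
    (p.2 = q.2 ∧ (q.1 = p.1 + 1 ∨ p.1 = q.1 + 1))

/-- the two squares are equal or share an edge or a corner -/
def Adj8 (p q : ℤ × ℤ) : Prop := |p.1 - q.1| ≤ 1 ∧ |p.2 - q.2| ≤ 1

/-- the step from `p` to `q` is a vertical step between the rows `y` and `y + 1` in a column
beyond the column `x` -/
def IsV (x y : ℤ) (p q : ℤ × ℤ) : Prop :=
  p.1 = q.1 ∧ x < p.1 ∧ ((p.2 = y ∧ q.2 = y + 1) ∨ (p.2 = y + 1 ∧ q.2 = y))

open Classical in
/-- number of vertical steps, mod 2 -/
private noncomputable def V (c : ℕ → ℤ × ℤ) (K : ℕ) (x y : ℤ) : ZMod 2 :=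
  ∑ i ∈ Finset.range K, if IsV x y (c i) (c (i + 1)) then 1 else 0

private theorem two (a : ZMod 2) : a + a = 0 := by revert a; decide

/-- telescoping -/
private theorem tele (f : ℕ → ZMod 2) (K : ℕ) :
    ∑ i ∈ Finset.range K, (f i + f (i + 1)) = f 0 + f K := by
  induction K with
  | zero => simp [two]
  | succ K ih =>
    rw [Finset.sum_range_succ, ih]
    have := two (f K)
    calc f 0 + f K + (f K + f (K + 1)) = f 0 + (f K + f K) + f (K + 1) := by ring
      _ = _ := by rw [this, add_zero]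

private theorem V_col {c : ℕ → ℤ × ℤ} {K : ℕ} {x y : ℤ}
    (h' : (∀ i ≤ K, c i ≠ (x + 1, y)) ∨ ∀ i ≤ K, c i ≠ (x + 1, y + 1)) :
    V c K x y = V c K (x + 1) y := by
  classical
  unfold V
  apply Finset.sum_congr rfl
  intro i hi
  rw [Finset.mem_range] at hi
  have e : IsV x y (c i) (c (i + 1)) ↔ IsV (x + 1) y (c i) (c (i + 1)) := by
    unfold IsV
    constructor
    · rintro ⟨h1, h2, h3⟩
      refine ⟨h1, ?_, h3⟩
      by_contra h4
      have h5 : (c i).1 = x + 1 := by omega
      have h6 : (c (i + 1)).1 = x + 1 := by omega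
      rcases h' with h' | h'
      · rcases h3 with h3 | h3
        · exact h' i hi.le (Prod.ext h5 h3.1)
        · exact h' (i + 1) hi (Prod.ext h6 h3.2)
      · rcases h3 with h3 | h3
        · exact h' (i + 1) hi (Prod.ext h6 h3.2)
        · exact h' i hi.le (Prod.ext h5 h3.1)
    · rintro ⟨h1, h2, h3⟩
      exact ⟨h1, by omega, h3⟩
  simp only [e]

private theorem V_row {c : ℕ → ℤ × ℤ} {K : ℕ} (hc : ∀ i < K, Adj4 (c i) (c (i + 1))) {x y : ℤ}
    (h : ∀ i ≤ K, c i ≠ (x, y + 1)) (h0 : (c 0).2 ≠ y + 1) (hK : (c K).2 ≠ y + 1) :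
    V c K x y = V c K x (y + 1) := by
  classical
  have key : V c K x y + V c K x (y + 1) = 0 := by
    unfold V
    rw [← Finset.sum_add_distrib]
    let f : ℕ → ZMod 2 := fun i => if (c i).2 = y + 1 ∧ x < (c i).1 then 1 else 0
    have h1 := tele f K
    have h2 : f 0 = 0 := if_neg fun h => h0 h.1
    have h3 : f K = 0 := if_neg fun h => hK h.1
    rw [h2, h3, add_zero] at h1
    refine Eq.trans ?_ h1
    apply Finset.sum_congr rfl
    intro i hi
    rw [Finset.mem_range] at hi
    have ha := hc i hi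
    have hn1 := h i hi.le
    have hn2 := h (i + 1) hi
    rw [ne_eq, Prod.ext_iff, not_and_or] at hn1 hn2
    have hpq : (c i).1 = (c (i + 1)).1 ∧ (c i).2 = (c (i + 1)).2 ∨
        (c i).1 = (c (i + 1)).1 ∧ ((c (i + 1)).2 = (c i).2 + 1 ∨ (c i).2 = (c (i + 1)).2 + 1) ∨
        (c i).2 = (c (i + 1)).2 ∧ ((c (i + 1)).1 = (c i).1 + 1 ∨ (c i).1 = (c (i + 1)).1 + 1) := by
      rcases ha with ha | ha | ha
      · left; rw [ha]; exact ⟨rfl, rfl⟩
      · exact Or.inr (Or.inl ha)
      · exact Or.inr (Or.inr ha)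
    simp only at hn1 hn2
    simp only [f]
    by_cases hv : IsV x y (c i) (c (i + 1)) <;>
    by_cases hw : IsV x (y + 1) (c i) (c (i + 1)) <;>
    simp only [hv, hw, if_true, if_false] <;>
    unfold IsV at hv hw <;>
    split_ifs <;> first | (exfalso; omega) | decide
  have := two (V c K x (y + 1))
  calc V c K x y = V c K x y + (V c K x (y + 1) + V c K x (y + 1)) := by rw [this, add_zero]
    _ = V c K x y + V c K x (y + 1) + V c K x (y + 1) := by ring
    _ = _ := by rw [key, zero_add]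

private theorem V_all {c : ℕ → ℤ × ℤ} {K : ℕ} (hc : ∀ i < K, Adj4 (c i) (c (i + 1))) {x y : ℤ}
    (h : ∀ i ≤ K, x < (c i).1) (h0 : (c 0).2 ≤ y) (hK : y < (c K).2) :
    V c K x y = 1 := by
  classical
  unfold V
  let f : ℕ → ZMod 2 := fun i => if (c i).2 ≤ y then 1 else 0
  have h1 := tele f K
  have h2 : f 0 = 1 := if_pos h0
  have h3 : f K = 0 := if_neg (not_le.mpr hK)
  rw [h2, h3, add_zero] at h1
  refine Eq.trans ?_ h1
  apply Finset.sum_congr rfl
  intro i hi
  rw [Finset.mem_range] at hi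
  have ha := hc i hi
  have hn1 := h i hi.le
  have hn2 := h (i + 1) hi
  have hpq : (c i).1 = (c (i + 1)).1 ∧ (c i).2 = (c (i + 1)).2 ∨
      (c i).1 = (c (i + 1)).1 ∧ ((c (i + 1)).2 = (c i).2 + 1 ∨ (c i).2 = (c (i + 1)).2 + 1) ∨
      (c i).2 = (c (i + 1)).2 ∧ ((c (i + 1)).1 = (c i).1 + 1 ∨ (c i).1 = (c (i + 1)).1 + 1) := by
    rcases ha with ha | ha | ha
    · left; rw [ha]; exact ⟨rfl, rfl⟩
    · exact Or.inr (Or.inl ha)
    · exact Or.inr (Or.inr ha)
  simp only [f]
  by_cases hv : IsV x y (c i) (c (i + 1)) <;>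
  simp only [hv, if_true, if_false] <;>
  unfold IsV at hv <;>
  split_ifs <;> first | (exfalso; omega) | decide

private theorem V_zero {c : ℕ → ℤ × ℤ} {K : ℕ} {x y : ℤ} (h : ∀ i ≤ K, (c i).1 ≤ x) :
    V c K x y = 0 := by
  classical
  unfold V
  apply Finset.sum_eq_zero
  intro i hi
  rw [Finset.mem_range] at hi
  apply if_neg
  rintro ⟨_, h2, _⟩
  have := h i hi.le
  omega

/-- **Crossing lemma.** -/
theorem crossing {m n : ℤ} {K L : ℕ} {a b : ℕ → ℤ × ℤ}
    (ha : ∀ i ≤ K, 0 ≤ (a i).1 ∧ (a i).1 < m ∧ 0 ≤ (a i).2 ∧ (a i).2 < n)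
    (hb : ∀ j ≤ L, 0 ≤ (b j).1 ∧ (b j).1 < m ∧ 0 ≤ (b j).2 ∧ (b j).2 < n)
    (has : ∀ i < K, Adj4 (a i) (a (i + 1))) (hbs : ∀ j < L, Adj8 (b j) (b (j + 1)))
    (ha0 : (a 0).2 = 0) (haK : (a K).2 = n - 1) (hb0 : (b 0).1 = 0) (hbL : (b L).1 = m - 1) :
    ∃ i ≤ K, ∃ j ≤ L, a i = b j := by
  by_contra hne
  push Not at hne
  -- extend the chain below and above
  let c : ℕ → ℤ × ℤ := fun i =>
    if i = 0 then ((a 0).1, -1) else if i ≤ K + 1 then a (i - 1) else ((a K).1, n)
  have c0 : c 0 = ((a 0).1, -1) := rfl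
  have c1 : ∀ i ≤ K, c (i + 1) = a i := by
    intro i hi
    simp only [c]
    rw [if_neg (by omega), if_pos (by omega)]
    simp
  have c2 : c (K + 2) = ((a K).1, n) := by
    simp only [c]
    rw [if_neg (by omega), if_neg (by omega)]
  have hcases : ∀ i ≤ K + 2, i = 0 ∨ i = K + 2 ∨ ∃ j ≤ K, i = j + 1 := by
    intro i hi
    rcases Nat.eq_zero_or_pos i with h | h
    · exact Or.inl h
    · rcases Nat.lt_or_ge i (K + 2) with h' | h'
      · exact Or.inr (Or.inr ⟨i - 1, by omega, by omega⟩)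
      · exact Or.inr (Or.inl (by omega))
  have hc : ∀ i < K + 2, Adj4 (c i) (c (i + 1)) := by
    intro i hi
    rcases Nat.eq_zero_or_pos i with h | h
    · subst h
      rw [c0, zero_add, show (1 : ℕ) = 0 + 1 from rfl, c1 0 (Nat.zero_le _)]
      exact Or.inr (Or.inl ⟨rfl, Or.inl (by simp [ha0])⟩)
    · rcases Nat.lt_or_ge i (K + 1) with h' | h'
      · have e : i = (i - 1) + 1 := by omega
        rw [e, c1 (i - 1) (by omega), ← e, c1 i (by omega)]
        have := has (i - 1) (by omega)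
        rwa [← e] at this
      · have e : i = K + 1 := by omega
        rw [e, c1 K le_rfl, c2]
        exact Or.inr (Or.inl ⟨rfl, Or.inl (by simp [haK])⟩)
  have hcol : ∀ i ≤ K + 2, 0 ≤ (c i).1 ∧ (c i).1 < m := by
    intro i hi
    rcases hcases i hi with rfl | rfl | ⟨j, hj, rfl⟩
    · rw [c0]; exact ⟨(ha 0 (Nat.zero_le _)).1, (ha 0 (Nat.zero_le _)).2.1⟩
    · rw [c2]; exact ⟨(ha K le_rfl).1, (ha K le_rfl).2.1⟩
    · rw [c1 j hj]; exact ⟨(ha j hj).1, (ha j hj).2.1⟩
  -- the chain b avoids c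
  have hav : ∀ j ≤ L, ∀ i ≤ K + 2, c i ≠ ((b j).1, (b j).2) := by
    intro j hj i hi h
    rcases hcases i hi with rfl | rfl | ⟨k, hk, rfl⟩
    · rw [c0] at h
      have := (Prod.ext_iff.mp h).2
      simp only at this
      have := (hb j hj).2.2.1
      omega
    · rw [c2] at h
      have := (Prod.ext_iff.mp h).2
      simp only at this
      have := (hb j hj).2.2.2
      omega
    · rw [c1 k hk] at h
      exact hne k hk j hj h
  have hrow0 : ∀ y : ℤ, 0 ≤ y → (c 0).2 ≠ y := by
    intro y hy h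
    rw [c0] at h
    simp only at h
    omega
  have hrowK : ∀ y : ℤ, y < n → (c (K + 2)).2 ≠ y := by
    intro y hy h
    rw [c2] at h
    simp only at h
    omega
  -- parity is constant along b
  have hconst : ∀ j ≤ L, V c (K + 2) (b j).1 (b j).2 = 1 := by
    intro j
    induction j with
    | zero =>
      intro hj
      have h1 : V c (K + 2) (-1) (b 0).2 = 1 := by
        apply V_all hc
        · intro i hi
          have := (hcol i hi).1
          omega
        · rw [c0]
          have := (hb 0 hj).2.2.1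
          simp only
          omega
        · rw [c2]
          exact (hb 0 hj).2.2.2
      have h2 : V c (K + 2) (-1) (b 0).2 = V c (K + 2) (-1 + 1) (b 0).2 := by
        apply V_col
        left
        intro i hi h
        apply hav 0 hj i hi
        rw [h, hb0]
        simp
      rw [hb0, show (0 : ℤ) = -1 + 1 by norm_num, ← h2, h1]
    | succ j ih =>
      intro hj
      rw [← ih (by omega)]
      have hp := hav j (by omega)
      have hq := hav (j + 1) hj
      have hbj := hb j (by omega)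
      have hbj' := hb (j + 1) hj
      have hs := hbs j (by omega)
      unfold Adj8 at hs
      rw [abs_le, abs_le] at hs
      generalize hx : (b j).1 = x at *
      generalize hy : (b j).2 = y at *
      generalize hx' : (b (j + 1)).1 = x' at *
      generalize hy' : (b (j + 1)).2 = y' at *
      -- horizontal moves
      have H1 : ∀ x₀ y₀, (∀ i ≤ K + 2, c i ≠ (x₀ + 1, y₀)) →
          V c (K + 2) x₀ y₀ = V c (K + 2) (x₀ + 1) y₀ := fun x₀ y₀ h => V_col (Or.inl h)
      have H2 : ∀ x₀ y₀, (∀ i ≤ K + 2, c i ≠ (x₀ + 1, y₀ + 1)) →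
          V c (K + 2) x₀ y₀ = V c (K + 2) (x₀ + 1) y₀ := fun x₀ y₀ h => V_col (Or.inr h)
      have R : ∀ x₀ y₀, 0 ≤ y₀ + 1 → y₀ + 1 < n → (∀ i ≤ K + 2, c i ≠ (x₀, y₀ + 1)) →
          V c (K + 2) x₀ y₀ = V c (K + 2) x₀ (y₀ + 1) := fun x₀ y₀ h1 h2 h =>
        V_row hc h (hrow0 _ h1) (hrowK _ h2)
      have hxc : x' = x ∨ x' = x + 1 ∨ x = x' + 1 := by omega
      have hyc : y' = y ∨ y' = y + 1 ∨ y = y' + 1 := by omega
      rcases hyc with rfl | rfl | rfl
      · rcases hxc with rfl | rfl | rfl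
        · rfl
        · exact (H1 x y' hq).symm
        · exact H1 x' y' hp
      · rcases hxc with rfl | rfl | rfl
        · exact (R x' y (by omega) (by omega) hq).symm
        · rw [← R (x + 1) y (by omega) (by omega) hq, ← H2 x y hq]
        · rw [← R x' y (by omega) (by omega) hq, ← H1 x' y hp]
      · rcases hxc with rfl | rfl | rfl
        · exact R x' y' (by omega) (by omega) hp
        · rw [← R x y' (by omega) (by omega) hp, ← H1 x y' hq]
        · rw [← R (x' + 1) y' (by omega) (by omega) hp, ← H2 x' y' hp]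
  have h1 := hconst L le_rfl
  have h2 : V c (K + 2) (b L).1 (b L).2 = 0 := by
    apply V_zero
    intro i hi
    rw [hbL]
    have := (hcol i hi).2
    omega
  rw [h1] at h2
  exact absurd h2 (by decide)

end Pool.Agent.Lib.MP_f3090c_an.Cross
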